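import Pool.Agent.Q75.HM.Stm

set_option autoImplicit false

/-!
# Project HM (helper75), job QB: Schwarz lemma and the extremal quantity
-/

namespace Pool.Agent.Q223.HM

open Complex Set Metric Filter Topology

open Pool.Agent.Q75.HM

/-- the inverse of a Riemann map -/
theorem inv_of {Ω : Set ℂ} {p : ℂ} {φ : ℂ → ℂ} (hU : IsOpen Ω) (hp : p ∈ Ω) (h : RM Ω p φ) :
    ∃ g : ℂ → ℂ, DifferentiableOn ℂ g (ball 0 1) ∧ MapsTo g (ball 0 1) Ω ∧
      (∀ z ∈ Ω, g (φ z) = z) ∧ (∀ w ∈ ball (0 : ℂ) 1, φ (g w) = w) ∧ g 0 = p := by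
  obtain ⟨h1, h2, h3, h4⟩ := h
  have hleft : ∀ z ∈ Ω, Function.invFunOn φ Ω (φ z) = z := fun z hz =>
    h2.injOn.leftInvOn_invFunOn hz
  have hright : ∀ z ∈ ball (0 : ℂ) 1, φ (Function.invFunOn φ Ω z) = z := by
    intro z hz
    obtain ⟨w, hw, rfl⟩ := h2.surjOn hz
    rw [hleft w hw]
  have hder : ∀ w ∈ Ω, HasStrictDerivAt (Function.invFunOn φ Ω) (deriv φ w)⁻¹ (φ w) := by
    intro w hw
    have hs : HasStrictDerivAt φ (deriv φ w) w :=
      ((h1.analyticAt (hU.mem_nhds hw)).hasStrictDerivAt)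
    apply hs.to_local_left_inverse (h3 w hw)
    filter_upwards [hU.mem_nhds hw] with x hx
    exact hleft x hx
  refine ⟨Function.invFunOn φ Ω, ?_, ?_, hleft, hright, ?_⟩
  · intro z hz
    obtain ⟨w, hw, rfl⟩ := h2.surjOn hz
    exact (hder w hw).hasDerivAt.differentiableAt.differentiableWithinAt
  · intro z hz
    obtain ⟨w, hw, rfl⟩ := h2.surjOn hz
    rw [hleft w hw]; exact hw
  · rw [← h4]; exact hleft p hp

/-- the Schwarz lemma for competitors -/
theorem schwarz {Ω : Set ℂ} {p z : ℂ} {φ f : ℂ → ℂ} (hU : IsOpen Ω) (hp : p ∈ Ω) (hz : z ∈ Ω)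
    (h : RM Ω p φ) (hf : DifferentiableOn ℂ f Ω) (hm : MapsTo f Ω (ball 0 1)) (h0 : f p = 0) :
    ‖dslope f p z‖ ≤ ‖dslope φ p z‖ := by
  obtain ⟨g, g1, g2, g3, g4, g5⟩ := inv_of hU hp h
  obtain ⟨h1, h2, h3, h4⟩ := h
  have hF : DifferentiableOn ℂ (fun w => f (g w)) (ball 0 1) := hf.comp g1 g2
  have hFm : MapsTo (fun w => f (g w)) (ball (0 : ℂ) 1) (ball (0 : ℂ) 1) := fun w hw => hm (g2 hw)
  have hF0 : (fun w => f (g w)) 0 = 0 := by simp only [g5, h0]
  by_cases hzp : z = p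
  · subst hzp
    rw [dslope_same, dslope_same]
    have hd0 : ‖deriv (fun w => f (g w)) 0‖ ≤ 1 := by
      apply Complex.norm_deriv_le_one_of_mapsTo_ball hF _ one_pos
      intro w hw
      have := hFm hw
      rw [show f (g 0) = 0 from hF0]
      exact ball_subset_closedBall this
    have hev : f =ᶠ[𝓝 z] fun x => (fun w => f (g w)) (φ x) := by
      filter_upwards [hU.mem_nhds hz] with x hx
      simp only [g3 x hx]
    have hdφ : HasDerivAt φ (deriv φ z) z := (h1.differentiableAt (hU.mem_nhds hz)).hasDerivAt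
    have hdF : HasDerivAt (fun w => f (g w)) (deriv (fun w => f (g w)) 0) (φ z) := by
      rw [h4]
      exact (hF.differentiableAt (ball_mem_nhds _ one_pos)).hasDerivAt
    have hcomp : HasDerivAt (fun x => (fun w => f (g w)) (φ x))
        (deriv (fun w => f (g w)) 0 * deriv φ z) z := hdF.comp z hdφ
    have hdf : deriv f z = deriv (fun w => f (g w)) 0 * deriv φ z := by
      rw [hev.deriv_eq]
      exact hcomp.deriv
    rw [hdf, norm_mul]
    calc ‖deriv (fun w => f (g w)) 0‖ * ‖deriv φ z‖ ≤ 1 * ‖deriv φ z‖ := by gcongr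
      _ = ‖deriv φ z‖ := one_mul _
  · rw [dslope_of_ne _ hzp, dslope_of_ne _ hzp, slope_def_field, slope_def_field, norm_div,
      norm_div, h0, h4, sub_zero, sub_zero]
    have hφz : ‖φ z‖ < 1 := by simpa using h2.mapsTo hz
    have hs : ‖(fun w => f (g w)) (φ z)‖ ≤ ‖φ z‖ := by
      apply Complex.norm_le_norm_of_mapsTo_ball hF _ hF0 hφz
      exact hFm.mono_right ball_subset_closedBall
    simp only [g3 z hz] at hs
    gcongr

theorem t_QB : S_QB := by
  intro Ω p z hD hp hz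
  obtain ⟨hU, hUc, hne⟩ := hD
  have hmain : ∀ φ, RM Ω p φ → qn Ω p z = ‖dslope φ p z‖ := by
    intro φ hφ
    have hg : IsGreatest {x : ℝ | ∃ f : ℂ → ℂ, DifferentiableOn ℂ f Ω ∧ MapsTo f Ω (ball 0 1) ∧
        f p = 0 ∧ x = ‖dslope f p z‖} ‖dslope φ p z‖ := by
      refine ⟨⟨φ, hφ.1, hφ.2.1.mapsTo, hφ.2.2.2, rfl⟩, ?_⟩
      rintro x ⟨f, hf1, hf2, hf3, rfl⟩
      exact schwarz hU hp hz hφ hf1 hf2 hf3
    exact hg.csSup_eq
  obtain ⟨φ, hφ⟩ : ∃ φ, RM Ω p φ := Pool.Agent.Helper405.Riemann.riemann hU hUc hne hp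
  have hq := hmain φ hφ
  have hcomp : ∀ f : ℂ → ℂ, DifferentiableOn ℂ f Ω → MapsTo f Ω (ball 0 1) → f p = 0 →
      ‖dslope f p z‖ ≤ qn Ω p z := by
    intro f hf1 hf2 hf3
    rw [hq]
    exact schwarz hU hp hz hφ hf1 hf2 hf3
  refine ⟨hmain, ?_, ?_, hcomp, ?_⟩
  · rw [hq, norm_pos_iff]
    by_cases hzp : z = p
    · subst hzp
      rw [dslope_same]
      exact hφ.2.2.1 z hz
    · intro h0
      have h5 := sub_smul_dslope φ p z
      rw [h0, smul_zero] at h5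
      exact hzp (hφ.2.1.injOn hz hp (sub_eq_zero.1 h5.symm))
  · intro Ω' hsub
    apply csSup_le
    · refine ⟨‖dslope (fun _ : ℂ => (0 : ℂ)) p z‖, fun _ => 0, differentiableOn_const _, ?_, rfl, rfl⟩
      intro w _
      simp
    · rintro x ⟨f, hf1, hf2, hf3, rfl⟩
      exact hcomp f (hf1.mono hsub) (hf2.mono_left hsub) hf3
  · rw [hq, ← norm_mul]
    have h5 := sub_smul_dslope φ p z
    rw [smul_eq_mul] at h5
    rw [h5, hφ.2.2.2, sub_zero]
    simpa using hφ.2.1.mapsTo hz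

end Pool.Agent.Q223.HM
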